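import Pool.Agent.V11237.LP.Short

set_option autoImplicit false

/-!
# Almost primes between `x` and `x + √x`: the laws of the gaps

Call `m` good if it has no prime factor up to `n ^ (1 / r)`. In EVERY interval `(u, u + Y]` with `n ≤ u`, `u + Y ≤ n + √n` and `Y ≥ n ^ θ` the distances of the
good integers to the `l`-th good integer before them have the Gamma distributions of a Poisson process of
density `U`, the product of `1 - 1 / p` over the primes `p ≤ n ^ (1 / r)`, up to `ε`, for every `l ≤ l₀` and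
all distances (and for every `l` if the distance is at most `x₀ / U`). With `T = 0` this is the asymptotic
number of the good integers.
-/

namespace Pool.Agent.Results.MP_b8a134_nt.AlmostPrimeGapLaws

open Finset Filter
open Pool.Agent.V11237.LP.Short

/-- **The laws of the gaps of the almost primes between `n` and `n + √n`**, in all subintervals of length at least `n ^ θ`. -/
theorem result (θ : ℝ) (hθ : 0 < θ) (l₀ : ℕ) (x₀ ε : ℝ) (hε : 0 < ε) :
    ∃ r₀ : ℕ, ∀ r : ℕ, r₀ ≤ r → ∃ n₀ : ℕ, ∀ n : ℕ, n₀ ≤ n → 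
      (∀ m : ℕ, m ≠ 0 → (m : ℝ) ≤ n + √n → Good n r m → m.primeFactorsList.length ≤ 2 * r) ∧
      ∀ u Y : ℕ, n ≤ u ∧ (u : ℝ) + Y ≤ n + √n → (n : ℝ) ^ θ ≤ Y → ∀ l T : ℕ, (l ≤ l₀ ∨ T * U n r ≤ x₀) →
        |(G n r l T u Y : ℝ) - Y * U n r *
          ∑ j ∈ range l, Real.exp (-(T * U n r)) * (T * U n r) ^ j / j.factorial| ≤
        ε * (Y * U n r) := by
  obtain ⟨r0, _, h0⟩ := gaps θ hθ l₀ x₀ ε hε
  refine ⟨max r0 1, ?_⟩
  intro r hr
  obtain ⟨N0, hN0⟩ := h0 r ((le_max_left _ _).trans hr)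
  refine ⟨max N0 2, ?_⟩
  intro n hn
  have hb : 2 ≤ n := (le_max_right _ _).trans hn
  refine ⟨?_, fun u Y _ hY l T hT => hN0 n ((le_max_left _ _).trans hn) u Y hY l T hT⟩
  intro m hm0 hm hg
  refine few ((le_max_right _ _).trans hr) hb hm0 ?_ hg
  have hn1 : (2 : ℝ) ≤ n := by exact_mod_cast hb
  have h1 : √(n : ℝ) ≤ n := by
    rw [Real.sqrt_le_left (by linarith)]
    nlinarith
  have h2 : (m : ℝ) ≤ (n : ℝ) ^ 2 := by nlinarith
  exact_mod_cast h2

end Pool.Agent.Results.MP_b8a134_nt.AlmostPrimeGapLaws
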