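import Mathlib
import Pool.Agent.TH646.TT.Pow4
import Pool.Agent.TH823.Fam.Fam2

/-!
# Primes in short intervals `x ^ ε` at the points of thin translates of thin sets, with a power saving

There is an absolute constant `c > 0` such that the following holds for all `0 < ε < 1`, with `κ > 0`
which depends on `ε` and on the order `p` of the energy (or on the polynomial `f`) and on `B`.

* Let `s 1, ..., s x` be any family of integers in `[-B N, B N]` whose additive energy of order `p` is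
  at most `N ^ κ` times the minimal possible size `x ^ (2 p) / N`, and let `A` be any set of at least
  `N ^ (1 - κ)` integers in `[1, N]`. For all members `b = s m` of the family with `√N ≤ b ≤ N`, with at
  most `x N ^ (-κ)` exceptions `m ≤ x`, the translate `A + b` is good: for all integers `y` with
  `N ^ ε ≤ y ≤ N` the average over `a ∈ A` of the number of the primes in `(a + b, a + b + y]` is
  between `c y / log N` and `5 y / log N`, at least `c |A|` of the `a ∈ A` have at least `c y / log N`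
  primes in `(a + b, a + b + y]`, and for at least `c |A|` of the `a ∈ A` there is a prime in
  `(z - z ^ ε, z)`, `z = a + b`.
* In particular this holds for the members `b = c₀ + f m`, `m ≤ x`, for every nonconstant polynomial `f`
  with integer coefficients, of degree `d`, with `N ^ (1 - κ) ≤ x ^ d ≤ B N` and `|c₀| ≤ B N`; so the
  translates by almost all the numbers `c₀ + m ^ d` are good, for instance.

Both the set `A` and the family of the translations are sparse: the number of the pairs `(a, m)` can be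
as small as `N ^ (1 + 1 / d - 2 κ)`. For the family of all `b` in `[1, N]` this is the second part of the
starting hand-in `MP_31d0eb_nt.TranslatesOfSets`. The first part is `Pool.Agent.TH646.TT.pow_two_sided` of the
starting library, which is not used by any starting hand-in.
-/

set_option autoImplicit false

namespace Pool.Agent.Results.MP_b8a134_nt.PowerThinTranslates

open Finset Filter

/-- The additive energy of order `p` of the family `s 1, ..., s x`: the number of the solutions of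
`s (v 1) + ... + s (v p) = s (w 1) + ... + s (w p)` with all `v i`, `w i` in `{1, ..., x}`. -/
def energy (p x : ℕ) (s : ℕ → ℤ) : ℕ :=
  (((Fintype.piFinset fun _ : Fin p => Icc 1 x) ×ˢ (Fintype.piFinset fun _ : Fin p => Icc 1 x)).filter
    (fun q => ∑ i, s (q.1 i) = ∑ i, s (q.2 i))).card

open Classical in
/-- The number of the `m` in `{1, ..., x}` with the property `E`. -/
noncomputable def num (x : ℕ) (E : ℕ → Prop) : ℝ := (((Icc 1 x).filter E).card : ℝ)

/-- The number of the primes in `(n, n + y]`. -/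
def primesIn (n y : ℕ) : ℕ := ((Ioc n (n + y)).filter Nat.Prime).card

open Classical in
/-- The translate `A + b` is good: for all integers `y` with `N ^ ε ≤ y ≤ N` the average over `a ∈ A` of
the number of the primes in `(a + b, a + b + y]` is between `c y / log N` and `5 y / log N`, and for at
least `c |A|` of the `a ∈ A` this number is at least `c y / log N`; and for at least `c |A|` of the
`a ∈ A` there is a prime `q` with `z - z ^ ε < q < z`, `z = a + b`. -/
noncomputable def Good (c ε : ℝ) (N : ℕ) (A : Finset ℕ) (b : ℕ) : Prop :=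
  (∀ y : ℕ, (N : ℝ) ^ ε ≤ y → y ≤ N →
    c * (A.card * y) ≤ (∑ a ∈ A, (primesIn (a + b) y : ℝ)) * Real.log N ∧
    (∑ a ∈ A, (primesIn (a + b) y : ℝ)) * Real.log N ≤ 5 * (A.card * y) ∧
    c * A.card ≤ ((A.filter fun a => c * y ≤ (primesIn (a + b) y : ℝ) * Real.log N).card : ℝ)) ∧
  c * A.card ≤ ((A.filter fun a => ∃ q : ℕ, q.Prime ∧
    ((a + b : ℕ) : ℝ) - ((a + b : ℕ) : ℝ) ^ ε < q ∧ q < a + b).card : ℝ)

lemma num_le {x : ℕ} {E : ℕ → Prop} {V : ℝ} (h : ∀ S : Finset ℕ, S ⊆ Icc 1 x → (∀ m ∈ S, E m) → (S.card : ℝ) ≤ V) :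
    num x E ≤ V := by
  classical
  unfold num
  apply h _ (filter_subset _ _)
  intro m hm
  rw [mem_filter] at hm
  exact hm.2

/-- **Power saving for thin translates of thin sets.** -/
theorem result : ∃ c : ℝ, 0 < c ∧ c ≤ 1 ∧ ∀ ε : ℝ, 0 < ε → ε < 1 → ∀ B : ℕ,
    -- families of nearly minimal additive energy
    (∀ p : ℕ, ∃ κ : ℝ, 0 < κ ∧ ∃ N₀ : ℕ, ∀ N : ℕ, N₀ ≤ N → ∀ (x : ℕ) (s : ℕ → ℤ),
      (∀ m ∈ Icc 1 x, |s m| ≤ B * N) →
      (energy p x s : ℝ) * N ≤ (N : ℝ) ^ κ * (x : ℝ) ^ (2 * p) →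
      ∀ A : Finset ℕ, A ⊆ Icc 1 N → (N : ℝ) ^ (1 - κ) ≤ A.card →
        num x (fun m => √(N : ℝ) ≤ s m ∧ s m ≤ N ∧ ¬ Good c ε N A (s m).toNat) ≤ x * (N : ℝ) ^ (-κ)) ∧
    -- values of polynomials
    (∀ f : Polynomial ℤ, 1 ≤ f.natDegree → ∃ κ : ℝ, 0 < κ ∧ ∃ N₀ : ℕ, ∀ N : ℕ, N₀ ≤ N → ∀ x : ℕ,
      x ^ f.natDegree ≤ B * N → (N : ℝ) ^ (1 - κ) ≤ (x : ℝ) ^ f.natDegree → ∀ c₀ : ℤ, |c₀| ≤ B * N →
      ∀ A : Finset ℕ, A ⊆ Icc 1 N → (N : ℝ) ^ (1 - κ) ≤ A.card →
        num x (fun m => √(N : ℝ) ≤ (c₀ + f.eval (m : ℤ) : ℤ) ∧ c₀ + f.eval (m : ℤ) ≤ N ∧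
          ¬ Good c ε N A (c₀ + f.eval (m : ℤ)).toNat) ≤ x * (N : ℝ) ^ (-κ)) := by
  classical
  obtain ⟨c, hc0, hc1, hmain⟩ := Pool.Agent.TH646.TT.pow_two_sided
  refine ⟨c, hc0, hc1, fun ε hε hε1 B => ?_⟩
  have key : ∀ B p : ℕ, ∃ κ : ℝ, 0 < κ ∧ ∃ N₀ : ℕ, ∀ N : ℕ, N₀ ≤ N → ∀ (x : ℕ) (s : ℕ → ℤ),
      (∀ m ∈ Icc 1 x, |s m| ≤ B * N) →
      (energy p x s : ℝ) * N ≤ (N : ℝ) ^ κ * (x : ℝ) ^ (2 * p) →
      ∀ A : Finset ℕ, A ⊆ Icc 1 N → (N : ℝ) ^ (1 - κ) ≤ A.card →
        num x (fun m => √(N : ℝ) ≤ s m ∧ s m ≤ N ∧ ¬ Good c ε N A (s m).toNat) ≤ x * (N : ℝ) ^ (-κ) := by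
    intro B p
    obtain ⟨κ, hκ, hev⟩ := hmain ε hε hε1 p B
    obtain ⟨N₀, h0⟩ := eventually_atTop.1 hev
    refine ⟨κ, hκ, N₀, fun N hN x s hs hE A hA hAN => ?_⟩
    refine num_le fun S hS1 hS2 => h0 N hN x s hs hE A hA hAN S hS1 ?_
    intro m hm
    obtain ⟨h4, h5, h6⟩ := hS2 m hm
    rw [Real.sqrt_eq_rpow] at h4
    refine ⟨h4, by exact_mod_cast h5, fun h7 => h6 ?_⟩
    exact h7
  refine ⟨key B, fun f hd => ?_⟩
  obtain ⟨p, C1, hC1, h1⟩ := Pool.Agent.TH823.Fam.energy_poly' f hd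
  obtain ⟨A0, hA0⟩ := Pool.Agent.TH823.Fam.poly_size f
  obtain ⟨κ, hκ, N₀, h0⟩ := key (B + A0 * B) p
  have hκ2 : 0 < κ / 2 := by linarith
  obtain ⟨N1, hN1⟩ := eventually_atTop.1
    (((tendsto_rpow_atTop hκ2).comp tendsto_natCast_atTop_atTop).eventually_ge_atTop C1)
  refine ⟨κ / 2, hκ2, max (max N₀ N1) 1, fun N hN x hx1 hx2 c₀ hc A hA hAN => ?_⟩
  have hNa : N₀ ≤ N := ((le_max_left _ _).trans (le_max_left _ _)).trans hN
  have hNb : N1 ≤ N := ((le_max_right _ _).trans (le_max_left _ _)).trans hN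
  have hNc : 1 ≤ N := (le_max_right _ _).trans hN
  have hNR : (1 : ℝ) ≤ N := by exact_mod_cast hNc
  have hN0 : (0 : ℝ) < N := by linarith
  have hCN : C1 ≤ (N : ℝ) ^ (κ / 2) := hN1 N hNb
  have hx : 1 ≤ x := by
    by_contra hcon
    have : x = 0 := by omega
    subst this
    rw [Nat.cast_zero, zero_pow (by omega)] at hx2
    have : (0 : ℝ) < (N : ℝ) ^ (1 - κ / 2) := Real.rpow_pos_of_pos hN0 _
    linarith
  have hx0 : (0 : ℝ) < x := by exact_mod_cast hx
  have hsize : ∀ m ∈ Icc 1 x, |c₀ + f.eval (m : ℤ)| ≤ ((B + A0 * B : ℕ) : ℤ) * N := by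
    intro m hm
    refine (abs_add_le _ _).trans ?_
    have h3 := hA0 x hx m hm
    have h4 : (x : ℤ) ^ f.natDegree ≤ B * N := by exact_mod_cast hx1
    push_cast
    calc |c₀| + |f.eval (m : ℤ)| ≤ B * N + A0 * (B * N) := by
          apply add_le_add hc (h3.trans _)
          exact mul_le_mul_of_nonneg_left h4 (by positivity)
      _ = (B + A0 * B) * N := by ring
  have hen : (energy p x (fun m => c₀ + f.eval (m : ℤ)) : ℝ) * N ≤
      (N : ℝ) ^ κ * (x : ℝ) ^ (2 * p) := by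
    have h3 : (energy p x (fun m => c₀ + f.eval (m : ℤ)) : ℝ) * (x : ℝ) ^ f.natDegree ≤
        C1 * (x : ℝ) ^ (2 * p) := h1 x hx c₀
    have h4 : (N : ℝ) ≤ (N : ℝ) ^ (κ / 2) * (x : ℝ) ^ f.natDegree := by
      calc (N : ℝ) = (N : ℝ) ^ (κ / 2) * (N : ℝ) ^ (1 - κ / 2) := by
            rw [← Real.rpow_add hN0]
            norm_num
        _ ≤ _ := mul_le_mul_of_nonneg_left hx2 (Real.rpow_nonneg hN0.le _)
    calc (energy p x (fun m => c₀ + f.eval (m : ℤ)) : ℝ) * N
        ≤ (energy p x (fun m => c₀ + f.eval (m : ℤ)) : ℝ) *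
            ((N : ℝ) ^ (κ / 2) * (x : ℝ) ^ f.natDegree) :=
          mul_le_mul_of_nonneg_left h4 (Nat.cast_nonneg _)
      _ = (N : ℝ) ^ (κ / 2) *
            ((energy p x (fun m => c₀ + f.eval (m : ℤ)) : ℝ) * (x : ℝ) ^ f.natDegree) := by ring
      _ ≤ (N : ℝ) ^ (κ / 2) * (C1 * (x : ℝ) ^ (2 * p)) :=
          mul_le_mul_of_nonneg_left h3 (Real.rpow_nonneg hN0.le _)
      _ ≤ (N : ℝ) ^ (κ / 2) * ((N : ℝ) ^ (κ / 2) * (x : ℝ) ^ (2 * p)) := by
          apply mul_le_mul_of_nonneg_left _ (Real.rpow_nonneg hN0.le _)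
          exact mul_le_mul_of_nonneg_right hCN (by positivity)
      _ = _ := by
          rw [← mul_assoc, ← Real.rpow_add hN0]
          congr 2
          ring
  have hAN' : (N : ℝ) ^ (1 - κ) ≤ A.card := by
    refine le_trans (Real.rpow_le_rpow_of_exponent_le hNR ?_) hAN
    linarith
  have hfin := h0 N hNa x (fun m => c₀ + f.eval (m : ℤ)) hsize hen A hA hAN'
  refine hfin.trans ?_
  apply mul_le_mul_of_nonneg_left _ hx0.le
  apply Real.rpow_le_rpow_of_exponent_le hNR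
  linarith

end Pool.Agent.Results.MP_b8a134_nt.PowerThinTranslates
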